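import Pool.Agent.Helper3.WT.Defs

/-! Project WT: statements of the pieces (stubs). -/

set_option autoImplicit false

namespace Pool.Agent.Helper3.WT.St

open Finset Filter
open Pool.Agent.Helper48.ET
open Pool.Agent.Helper3.WT

section codes

variable {p : ℕ} [Fact p.Prime]

/-- WT-A1a (adapt `pair_self` of Helper48/ET/Pair.lean to `b = 0`) -/
theorem pair_self0 {C N M : ℕ} (hC : 8 ≤ C) (hNM : N ≤ M) (hp : p ≠ 2)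
    (θ : Par p) (hlam : θ.lam ≠ 0) (t w : ℕ → ZMod p) :
    (Sol C 0 N θ 0 N θ t w).ncard ≤ 2 ^ (Nat.log C M + 1) := by
  sorry

/-- WT-A1b (adapt `pair_lt` of Helper48/ET/Pair.lean to `b = b' = 0`) -/
theorem pair_lt0 {C N' N M : ℕ} (hC : 8 ≤ C) (hev : Even C) (hN' : 0 < N') (hlt : N' < N)
    (hNM : N ≤ M) (θ' : Par p) :
    ∃ P : MvPolynomial (Option (ℕ × ℕ × ℕ)) (Om p), P ≠ 0 ∧ P.totalDegree ≤ 2 * Del C + 1 ∧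
      ∀ θ : Par p, MvPolynomial.eval θ.val P ≠ 0 → ∀ t w : ℕ → ZMod p,
        (Sol C 0 N' θ' 0 N θ t w).ncard ≤ GG C M := by
  sorry

/-- WT-A2 (adapt `select_of` of Helper48/ET/SelectOf.lean) -/
theorem select0_of {C M : ℕ} (hp : P0 C M < p)
    (pair_self : p ≠ 2 → ∀ {N : ℕ}, N ≤ M → ∀ θ : Par p, θ.lam ≠ 0 → ∀ t w : ℕ → ZMod p,
      (Sol C 0 N θ 0 N θ t w).ncard ≤ 2 ^ (Nat.log C M + 1))
    (pair_lt : ∀ {N' N : ℕ}, 0 < N' → N' < N → N ≤ M → ∀ θ' : Par p,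
      ∃ P : MvPolynomial (Option (ℕ × ℕ × ℕ)) (Om p), P ≠ 0 ∧ P.totalDegree ≤ 2 * Del C + 1 ∧
      ∀ θ : Par p, MvPolynomial.eval θ.val P ≠ 0 → ∀ t w : ℕ → ZMod p,
        (Sol C 0 N' θ' 0 N θ t w).ncard ≤ GG C M) :
    ∃ θ : ℕ → Par p, ∀ N' N, 0 < N' → N' ≤ N → N ≤ M → ∀ t w : ℕ → ZMod p,
      (Sol C 0 N' (θ N') 0 N (θ N) t w).ncard ≤ GG C M := by
  sorry

/-- WT-A3 (adapt `AN_card_core` of Helper48/ET/GrowthCardCore.lean, use `code_exists`) -/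
theorem word_card {C M : ℕ} (hC : 2 ≤ C) (hM : 1 ≤ M) (θ : Par p) (ℓ : ℕ) :
    p ^ (M - 1) ≤ (wordSet C M θ ℓ).ncard := by
  sorry

/-- WT-A3 -/
theorem top_card {C N : ℕ} (hC : 2 ≤ C) (hN : 2 ≤ N) (θ : Par p) (ℓ : ℕ) :
    p ^ (N - 2) ≤ (topSet C N θ ℓ).ncard := by
  sorry

/-- WT-A4 -/
theorem two_enc_lt (N : ℕ) (x z : ℕ → ZMod p) : 2 * enc N x z < (2 * p) ^ (2 * N) := by
  sorry

/-- WT-A4 -/
theorem le_enc {N : ℕ} (hN : 1 ≤ N) (x z : ℕ → ZMod p) (hx : x (N - 1) = 1) :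
    (2 * p) ^ (2 * (N - 1)) ≤ enc N x z := by
  sorry

/-- WT-A4 -/
theorem enc_mod {N : ℕ} (hN : 1 ≤ N) (x z : ℕ → ZMod p) :
    enc N x z % (2 * p) = (x 0).val := by
  sorry

/-- WT-A5 (see `enc_add` in Helper48/ET/IntsCore.lean, `code_unique` in Helper48/ET/Code.lean and
the proof of `rep_bound_of`) -/
theorem rp_word_le {C N' N ℓ' ℓ B : ℕ} (hC : 2 ≤ C) {θ' θ : Par p} (hNN : N' ≤ N)
    (h : ∀ t w : ℕ → ZMod p, (Sol C 0 N' θ' 0 N θ t w).ncard ≤ B) (n : ℕ) :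
    rp (wordSet C N' θ' ℓ') (wordSet C N θ ℓ) n ≤ B := by
  sorry

end codes

/-- WT-A6 -/
theorem rp_comm (X Y : Set ℕ) (n : ℕ) : rp X Y n = rp Y X n := by
  sorry

/-- WT-A6 -/
theorem rp_mono {X X' Y Y' : Set ℕ} (hX : X ⊆ X') (hY : Y ⊆ Y') (n : ℕ) :
    rp X Y n ≤ rp X' Y' n := by
  sorry

/-- WT-A7 (from A1-A6; `T = wordSet C M (θ M) 0`, `S N = topSet C N (θ N) N`) -/
theorem comp_exists {C M p : ℕ} (hC : 8 ≤ C) (hev : Even C) (hM : 2 ≤ M) (hpp : p.Prime)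
    (hp : P0 C M < p) (hMp : M < p) :
    ∃ (T : Set ℕ) (S : ℕ → Set ℕ), Comp p M (GG C M) T S := by
  sorry

/-- WT-B1 -/
theorem rp_stack {X Y U V : Set ℕ} {W : ℕ} (hW : ∀ x ∈ X, ∀ y ∈ Y, x + y < W) (n : ℕ) :
    rp {m | ∃ x ∈ X, ∃ u ∈ U, m = x + W * u} {m | ∃ y ∈ Y, ∃ v ∈ V, m = y + W * v} n ≤
      rp X Y (n % W) * rp U V (n / W) := by
  sorry

section sys

variable (σ : Sys)

/-- WT-B2 -/
theorem W_pos (k : ℕ) : 0 < σ.W k := by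
  sorry

/-- WT-B2 -/
theorem low_lt (k : ℕ) : ∀ l ∈ σ.Low k, 2 * l < σ.W k := by
  sorry

/-- WT-B2 -/
theorem part_lt {k N : ℕ} (h2 : 2 ≤ N) (hN : N ≤ σ.M k) : ∀ a ∈ σ.Part k N,
    2 * a < σ.W k * (2 * σ.p k) ^ (2 * N) := by
  sorry

/-- WT-B2 -/
theorem part_ge {k N : ℕ} (h2 : 2 ≤ N) (hN : N ≤ σ.M k) : ∀ a ∈ σ.Part k N,
    σ.W k * (2 * σ.p k) ^ (2 * (N - 1)) ≤ a := by
  sorry

/-- WT-B2 -/
theorem part_lt_W {k N K : ℕ} (h2 : 2 ≤ N) (hN : N ≤ σ.M k) (hk : k < K) : ∀ a ∈ σ.Part k N,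
    2 * a < σ.W K := by
  sorry

/-- WT-B3 (from `rp_stack`) -/
theorem rp_low (k n : ℕ) : rp (σ.Low k) (σ.Low k) n ≤ ∏ j ∈ range k, σ.G j := by
  sorry

/-- WT-B3: a full sum against a shorter element; for `k' < k` write
`Part k' N' = {b + W k * 0 | b ∈ Part k' N'}` -/
theorem rp_low_part {k k' N' : ℕ} (hk : k' < k) (h2 : 2 ≤ N') (hN : N' ≤ σ.M k') (n : ℕ) :
    rp (σ.Low k) (σ.Part k' N') n ≤ ∏ j ∈ range k, σ.G j := by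
  sorry

/-- WT-B3 -/
theorem rp_part_part {k k' N N' : ℕ} (hkN : k' < k ∨ (k' = k ∧ N' ≤ N)) (h2 : 2 ≤ N)
    (hN : N ≤ σ.M k) (h2' : 2 ≤ N') (hN' : N' ≤ σ.M k') (n : ℕ) :
    rp (σ.Part k N) (σ.Part k' N') n ≤ ∏ j ∈ range (k + 1), σ.G j := by
  sorry

/-- WT-B4: the types of the summands are determined by the sum -/
theorem type_unique {k k' N N' l l' O O' : ℕ} (hkN : k' < k ∨ (k' = k ∧ N' ≤ N)) (h2 : 2 ≤ N)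
    (hN : N ≤ σ.M k) (h2' : 2 ≤ N') (hN' : N' ≤ σ.M k')
    (hlO : l' < l ∨ (l' = l ∧ O' ≤ O)) (h3 : 2 ≤ O)
    (hO : O ≤ σ.M l) (h3' : 2 ≤ O') (hO' : O' ≤ σ.M l')
    {a b a2 b2 : ℕ} (ha : a ∈ σ.Part k N) (hb : b ∈ σ.Part k' N') (ha2 : a2 ∈ σ.Part l O)
    (hb2 : b2 ∈ σ.Part l' O') (h : a + b = a2 + b2) : k = l ∧ N = O ∧ k' = l' ∧ N' = O' := by
  sorry

/-- WT-B5 (from `rp_part_part`, `type_unique`, `part_ge`) -/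
theorem rp_A {K n : ℕ} (hn : n < σ.W (K + 1)) :
    rp σ.A σ.A n ≤ 2 * ∏ j ∈ range (K + 1), σ.G j := by
  sorry

/-- WT-B6 -/
theorem part_card {k N : ℕ} (h2 : 2 ≤ N) (hN : N ≤ σ.M k) :
    (∏ j ∈ range k, σ.p j ^ (σ.M j - 1)) * σ.p k ^ (N - 2) ≤ (σ.Part k N).ncard := by
  sorry

end sys

/-- WT-C1: the parameters -/
theorem params : ∃ n C : ℕ → ℕ, (∀ k, 8 ≤ C k) ∧ (∀ k, Even (C k)) ∧ (∀ k, n k < n (k + 1)) ∧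
    (∀ k, P0 (C k) (2 ^ n (k + 1)) < 2 ^ 2 ^ n k) ∧
    (∀ e : ℝ, 0 < e → ∀ᶠ k in atTop, (n (k + 1) : ℝ) ≤ (1 + e) * n k) ∧
    (∀ e : ℝ, 0 < e → ∀ᶠ k in atTop,
      ∑ j ∈ range (k + 1), Real.logb 2 (GG (C j) (2 ^ n (j + 1)) : ℝ) ≤ e * n k) := by
  sorry

/-- the sizes of the components -/
structure Sized (σ : Sys) (n : ℕ → ℕ) : Prop where
  mono : ∀ k, n k < n (k + 1)
  M_eq : ∀ k, σ.M k = 2 ^ n (k + 1)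
  p_gt : ∀ k, 2 ^ 2 ^ n k < σ.p k
  p_le : ∀ k, σ.p k ≤ 2 ^ (2 ^ n k + 1)

/-- WT-C2 (Bertrand, `comp_exists`, `params`) -/
theorem sys_exists : ∃ (σ : Sys) (n : ℕ → ℕ), Sized σ n ∧
    (∀ e : ℝ, 0 < e → ∀ᶠ k in atTop, (n (k + 1) : ℝ) ≤ (1 + e) * n k) ∧
    (∀ e : ℝ, 0 < e → ∀ᶠ k in atTop,
      ∑ j ∈ range (k + 1), Real.logb 2 (σ.G j : ℝ) ≤ e * n k) := by
  sorry

/-- WT-C3 -/
theorem upper {σ : Sys} {n : ℕ → ℕ} (hs : Sized σ n)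
    (hG : ∀ e : ℝ, 0 < e → ∀ᶠ k in atTop,
      ∑ j ∈ range (k + 1), Real.logb 2 (σ.G j : ℝ) ≤ e * n k)
    (hrep : ∀ K m, m < σ.W (K + 1) → rp σ.A σ.A m ≤ 2 * ∏ j ∈ range (K + 1), σ.G j) :
    ∀ e : ℝ, 0 < e → ∀ᶠ m : ℕ in atTop, (rp σ.A σ.A m : ℝ) ≤ Real.log m ^ e := by
  sorry

/-- WT-C4: every large `x` has a component and a length with small loss -/
theorem lower_comb {σ : Sys} {n : ℕ → ℕ} (hs : Sized σ n) {x : ℕ}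
    (hx : σ.W 1 * (2 * σ.p 1) ^ 4 ≤ x) : ∃ K N, 1 ≤ K ∧ 2 ≤ N ∧ N ≤ σ.M K ∧
      σ.W K * (2 * σ.p K) ^ (2 * N) ≤ x ∧ x < σ.W (K + 2) ∧
      x ≤ (2 ^ (16 * (2 ^ n K + N)) *
        ((∏ j ∈ range K, σ.p j ^ (σ.M j - 1)) * σ.p K ^ (N - 2))) ^ 2 := by
  sorry

/-- WT-C5: analysis of the loss -/
theorem loss {σ : Sys} {n : ℕ → ℕ} (hs : Sized σ n)
    (hr : ∀ e : ℝ, 0 < e → ∀ᶠ k in atTop, (n (k + 1) : ℝ) ≤ (1 + e) * n k) :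
    ∀ e : ℝ, 0 < e → ∀ᶠ x : ℕ in atTop, ∀ K N, 1 ≤ K → 2 ≤ N → N ≤ σ.M K →
      σ.W K * (2 * σ.p K) ^ (2 * N) ≤ x → x < σ.W (K + 2) →
      (2 : ℝ) ^ (16 * (2 ^ n K + N)) ≤ Real.exp (Real.log x ^ (1 / 2 + e)) := by
  sorry

/-- WT-C6 -/
theorem lower {σ : Sys} {n : ℕ → ℕ} (hs : Sized σ n)
    (hr : ∀ e : ℝ, 0 < e → ∀ᶠ k in atTop, (n (k + 1) : ℝ) ≤ (1 + e) * n k) :
    ∀ e : ℝ, 0 < e → ∀ᶠ x : ℕ in atTop,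
      Real.sqrt x * Real.exp (-(Real.log x ^ (1 / 2 + e))) ≤ ((σ.A ∩ Set.Iio x).ncard : ℝ) := by
  sorry

/-- the theorem -/
theorem main : ∃ A : Set ℕ, ∀ e : ℝ, 0 < e →
    (∀ᶠ n : ℕ in atTop, (rp A A n : ℝ) ≤ Real.log n ^ e) ∧
    ∀ᶠ x : ℕ in atTop,
      Real.sqrt x * Real.exp (-(Real.log x ^ (1 / 2 + e))) ≤ ((A ∩ Set.Iio x).ncard : ℝ) := by
  obtain ⟨σ, n, hs, hr, hG⟩ := sys_exists
  exact ⟨σ.A, fun e he => ⟨upper hs hG (fun K m h => rp_A σ h) e he, lower hs hr e he⟩⟩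

end Pool.Agent.Helper3.WT.St
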